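import Pool.Agent.Helper79.AA.Defs

/-!
# UI, leaf U1: growth of the iterates at integers (helper71, for helper79)
-/

open Polynomial

namespace Pool.Agent.Helper71.UI

open Pool.Agent.Helper79.GC Pool.Agent.Helper79.GX Pool.Agent.Helper79.AA Pool.Agent.Helper37.GP

/-- The coefficients of `p` are at most those of `c (1 + X)^m`. -/
def Bd (m : ℕ) (c : ℝ) (p : ℚ[X]) : Prop := ∀ n, |((p.coeff n : ℚ) : ℝ)| ≤ c * (m.choose n : ℝ)

theorem Bd.mono {m m' : ℕ} {c c' : ℝ} {p : ℚ[X]} (h : Bd m c p) (hm : m ≤ m') (hc0 : 0 ≤ c)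
    (hc : c ≤ c') : Bd m' c' p := by
  intro n
  refine (h n).trans ?_
  have h1 : (m.choose n : ℝ) ≤ (m'.choose n : ℝ) := by exact_mod_cast Nat.choose_le_choose n hm
  exact mul_le_mul hc h1 (Nat.cast_nonneg _) (hc0.trans hc)

theorem Bd.add {m : ℕ} {c c' : ℝ} {p p' : ℚ[X]} (h : Bd m c p) (h' : Bd m c' p') :
    Bd m (c + c') (p + p') := by
  intro n
  rw [coeff_add, Rat.cast_add, add_mul]
  exact (abs_add_le _ _).trans (add_le_add (h n) (h' n))

theorem Bd.sub {m : ℕ} {c c' : ℝ} {p p' : ℚ[X]} (h : Bd m c p) (h' : Bd m c' p') :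
    Bd m (c + c') (p - p') := by
  intro n
  rw [coeff_sub, Rat.cast_sub, add_mul]
  exact (abs_sub _ _).trans (add_le_add (h n) (h' n))

theorem Bd.sum {κ : Type} (s : Finset κ) {m : ℕ} {c : κ → ℝ} {p : κ → ℚ[X]}
    (h : ∀ i ∈ s, Bd m (c i) (p i)) : Bd m (∑ i ∈ s, c i) (∑ i ∈ s, p i) := by
  intro n
  rw [finsetSum_coeff, Rat.cast_sum, Finset.sum_mul]
  exact (Finset.abs_sum_le_sum_abs _ _).trans (Finset.sum_le_sum fun i hi => h i hi n)

theorem Bd.mul {m m' : ℕ} {c c' : ℝ} {p p' : ℚ[X]} (hc : 0 ≤ c) (h : Bd m c p) (h' : Bd m' c' p') :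
    Bd (m + m') (c * c') (p * p') := by
  intro n
  rw [coeff_mul, Nat.add_choose_eq, Rat.cast_sum]
  push_cast
  rw [Finset.mul_sum]
  refine (Finset.abs_sum_le_sum_abs _ _).trans (Finset.sum_le_sum fun i _ => ?_)
  rw [abs_mul]
  calc _ ≤ (c * (m.choose i.1 : ℝ)) * (c' * (m'.choose i.2 : ℝ)) :=
        mul_le_mul (h _) (h' _) (abs_nonneg _) (by positivity)
    _ = _ := by ring

theorem Bd.smul {m : ℕ} {c r : ℝ} {p : ℚ[X]} (hr : 0 ≤ r) (a : ℚ) (ha : |(a : ℝ)| ≤ r)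
    (h : Bd m c p) : Bd m (r * c) (C a * p) := by
  intro n
  rw [coeff_C_mul, Rat.cast_mul, abs_mul, mul_assoc]
  exact mul_le_mul ha (h n) (abs_nonneg _) hr

theorem Bd.der {m : ℕ} {c : ℝ} {p : ℚ[X]} (hc : 0 ≤ c) (h : Bd m c p) :
    Bd m (m * c) (derivative p) := by
  intro n
  rw [coeff_derivative, Rat.cast_mul, abs_mul]
  have h1 : |(((n : ℚ) + 1 : ℚ) : ℝ)| = (n : ℝ) + 1 := by
    push_cast
    exact abs_of_nonneg (by positivity)
  rw [h1]
  have h2 : m.choose (n + 1) * (n + 1) ≤ m * m.choose n := by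
    rw [Nat.choose_succ_right_eq, mul_comm]
    exact Nat.mul_le_mul_right _ (Nat.sub_le _ _)
  have h3 : (m.choose (n + 1) : ℝ) * ((n : ℝ) + 1) ≤ (m : ℝ) * (m.choose n : ℝ) := by
    exact_mod_cast h2
  calc _ ≤ (c * (m.choose (n + 1) : ℝ)) * ((n : ℝ) + 1) :=
        mul_le_mul_of_nonneg_right (h _) (by positivity)
    _ = c * ((m.choose (n + 1) : ℝ) * ((n : ℝ) + 1)) := by ring
    _ ≤ c * ((m : ℝ) * (m.choose n : ℝ)) := mul_le_mul_of_nonneg_left h3 hc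
    _ = _ := by ring

theorem Bd.exists (p : ℚ[X]) : ∃ (m : ℕ) (c : ℝ), 0 ≤ c ∧ Bd m c p := by
  refine ⟨p.natDegree, ∑ n ∈ Finset.range (p.natDegree + 1), |((p.coeff n : ℚ) : ℝ)|,
    Finset.sum_nonneg fun _ _ => abs_nonneg _, fun n => ?_⟩
  by_cases hn : n ≤ p.natDegree
  · have h1 : (1 : ℝ) ≤ (p.natDegree.choose n : ℝ) := by
      exact_mod_cast Nat.choose_pos hn
    have h2 : |((p.coeff n : ℚ) : ℝ)| ≤
        ∑ n ∈ Finset.range (p.natDegree + 1), |((p.coeff n : ℚ) : ℝ)| :=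
      Finset.single_le_sum (f := fun n => |((p.coeff n : ℚ) : ℝ)|) (fun _ _ => abs_nonneg _)
        (Finset.mem_range.2 (Nat.lt_succ_of_le hn))
    calc _ ≤ (∑ n ∈ Finset.range (p.natDegree + 1), |((p.coeff n : ℚ) : ℝ)|) * 1 := by
          rw [mul_one]; exact h2
      _ ≤ _ := mul_le_mul_of_nonneg_left h1 (Finset.sum_nonneg fun _ _ => abs_nonneg _)
  · rw [coeff_eq_zero_of_natDegree_lt (not_le.1 hn), Nat.choose_eq_zero_of_lt (not_le.1 hn)]
    simp

theorem Bd.eval {m : ℕ} {c : ℝ} {p : ℚ[X]} (h : Bd m c p) (x : ℚ) :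
    |((p.eval x : ℚ) : ℝ)| ≤ c * (1 + |(x : ℝ)|) ^ m := by
  have hdeg : p.natDegree < m + 1 := by
    refine Nat.lt_succ_of_le (natDegree_le_iff_coeff_eq_zero.2 fun n hn => ?_)
    have h1 := h n
    rw [Nat.choose_eq_zero_of_lt hn, Nat.cast_zero, mul_zero] at h1
    have h2 := abs_nonpos_iff.1 h1
    exact_mod_cast h2
  rw [eval_eq_sum_range' hdeg, Rat.cast_sum, add_comm 1 |(x : ℝ)|, add_pow, Finset.mul_sum]
  refine (Finset.abs_sum_le_sum_abs _ _).trans (Finset.sum_le_sum fun n _ => ?_)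
  rw [Rat.cast_mul, Rat.cast_pow, abs_mul, abs_pow, one_pow, mul_one]
  calc _ ≤ (c * (m.choose n : ℝ)) * |(x : ℝ)| ^ n :=
        mul_le_mul_of_nonneg_right (h n) (by positivity)
    _ = _ := by ring

/-- Coefficients of the divided iterates. -/
theorem bd_beta {ι : Type} [Fintype ι] [DecidableEq ι] {T : ℚ[X]} {A : Matrix ι ι ℚ[X]} {D : ℕ}
    {L : ℝ} (hL : 0 ≤ L) (hT : Bd D L T) (hA : ∀ a b, Bd D L (A a b)) (j : ℕ) :
    ∀ a b, Bd (D * j) ((L * (2 * D + Fintype.card ι)) ^ j) (betaF T A j a b) := by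
  set K : ℝ := L * (2 * D + Fintype.card ι) with hK
  have hK0 : 0 ≤ K := by positivity
  induction j with
  | zero =>
    intro a b n
    rw [betaF, Matrix.one_apply, pow_zero, one_mul, mul_zero]
    split_ifs
    · rcases n with _ | n
      · simp
      · simp [coeff_one]
    · simp
  | succ j ih =>
    intro a b
    have hb : betaF T A (j + 1) a b = C (((j : ℚ) + 1)⁻¹) * (T * derivative (betaF T A j a b)
        - ((C (j : ℚ)) * derivative T) * betaF T A j a b + ∑ l, betaF T A j a l * A l b) := by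
      rw [betaF]
      simp only [Matrix.smul_apply, Matrix.add_apply, Matrix.sub_apply, Matrix.map_apply,
        Matrix.mul_apply, smul_eq_mul, map_natCast]
    rw [hb]
    have h1 : Bd (D + D * j) (L * (((D * j : ℕ) : ℝ) * K ^ j)) (T * derivative (betaF T A j a b)) :=
      Bd.mul hL hT ((ih a b).der (pow_nonneg hK0 j))
    have h2 : Bd (D + D * j) (((j : ℝ) * ((D : ℝ) * L)) * K ^ j)
        (((C (j : ℚ)) * derivative T) * betaF T A j a b) := by
      refine Bd.mul (by positivity) (Bd.smul (by positivity) _ ?_ (hT.der hL)) (ih a b)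
      rw [Rat.cast_natCast, Nat.abs_cast]
    have h3 : Bd (D + D * j) (∑ _l : ι, K ^ j * L) (∑ l, betaF T A j a l * A l b) := by
      refine Bd.sum _ fun l _ => ?_
      rw [add_comm D]
      exact Bd.mul (pow_nonneg hK0 j) (ih a l) (hA l b)
    have h4 := Bd.smul (r := ((j : ℝ) + 1)⁻¹) (by positivity) (((j : ℚ) + 1)⁻¹) (by
      push_cast
      rw [abs_of_nonneg (by positivity)]) ((h1.sub h2).add h3)
    refine h4.mono (by rw [mul_add, mul_one, add_comm]) (by positivity) ?_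
    rw [Finset.sum_const, Finset.card_univ, nsmul_eq_mul, pow_succ, inv_mul_le_iff₀ (by positivity)]
    have h5 : L * (((D * j : ℕ) : ℝ) * K ^ j) + (j : ℝ) * ((D : ℝ) * L) * K ^ j +
        (Fintype.card ι : ℝ) * (K ^ j * L) = K ^ j * (L * (2 * D * j + Fintype.card ι)) := by
      push_cast
      ring
    rw [h5]
    have h6 : L * (2 * D * j + Fintype.card ι) ≤ ((j : ℝ) + 1) * K := by
      rw [hK]
      have : ((j : ℝ) + 1) * (L * (2 * D + Fintype.card ι)) =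
          L * (2 * D * j + Fintype.card ι) + L * (2 * D + j * Fintype.card ι) := by ring
      rw [this]
      have : 0 ≤ L * (2 * D + j * Fintype.card ι) := by positivity
      linarith
    calc _ ≤ K ^ j * (((j : ℝ) + 1) * K) := mul_le_mul_of_nonneg_left h6 (pow_nonneg hK0 j)
      _ = _ := by ring

theorem betaF_eq_beta {ι : Type} [Fintype ι] [DecidableEq ι] (T : ℚ[X]) (A : Matrix ι ι ℚ[X])
    (j : ℕ) : betaF T A j = beta T A j := by
  induction j with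
  | zero => rfl
  | succ j ih => rw [betaF, beta, ih]

theorem intBy_eval {q : ℕ} {p : ℚ[X]} (h : IntBy q p) (x : ℤ) :
    ∃ z : ℤ, (q : ℚ) * p.eval (x : ℚ) = z := by
  choose z hz using h
  refine ⟨∑ n ∈ Finset.range (p.natDegree + 1), z n * x ^ n, ?_⟩
  rw [eval_eq_sum_range, Finset.mul_sum]
  push_cast
  refine Finset.sum_congr rfl fun n _ => ?_
  rw [← hz n]
  ring

end Pool.Agent.Helper71.UI

namespace Pool.Agent.Helper79.UI

open Pool.Agent.Helper79.GC Pool.Agent.Helper79.GX Pool.Agent.Helper79.AA Pool.Agent.Helper37.GP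
  Pool.Agent.Helper71.UI

/-- U1: growth of the iterates at integers. -/
theorem gal_gr {ι : Type} [Fintype ι] [DecidableEq ι] {T : ℤ[X]} (hT : T ≠ 0)
    {A : Matrix ι ι ℚ[X]} {H : ℕ} (hG : Galochkin (T.map (Int.castRingHom ℚ)) A H) :
    ∃ s₀ c : ℕ, ∀ s : ℕ, s₀ ≤ s → ∀ x : ℤ, (s : ℤ) ≤ 2 * x → x ≤ 2 * s →
      Gr (T.map (Int.castRingHom ℚ)) A (x : ℚ) ((s : ℝ) ^ c) := by
  classical
  set TQ : ℚ[X] := T.map (Int.castRingHom ℚ) with hTQ
  -- bounds for the coefficients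
  obtain ⟨m₁, c₁, hc₁, hb₁⟩ := Bd.exists TQ
  have hex : ∀ p : ι × ι, ∃ (m : ℕ) (c : ℝ), 0 ≤ c ∧ Bd m c (A p.1 p.2) := fun p => Bd.exists _
  choose m₂ c₂ hc₂ hb₂ using hex
  set D : ℕ := m₁ + ∑ p, m₂ p with hD
  set L : ℝ := c₁ + ∑ p, c₂ p with hL
  have hL0 : 0 ≤ L := add_nonneg hc₁ (Finset.sum_nonneg fun p _ => hc₂ p)
  have hbT : Bd D L TQ := hb₁.mono (Nat.le_add_right _ _) hc₁
    (le_add_of_nonneg_right (Finset.sum_nonneg fun p _ => hc₂ p))
  have hbA : ∀ a b, Bd D L (A a b) := fun a b => (hb₂ (a, b)).mono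
    ((Finset.single_le_sum (f := m₂) (fun _ _ => Nat.zero_le _) (Finset.mem_univ (a, b))).trans
      (Nat.le_add_left _ _)) (hc₂ _)
    ((Finset.single_le_sum (f := c₂) (fun p _ => hc₂ p) (Finset.mem_univ (a, b))).trans
      (le_add_of_nonneg_left hc₁))
  set K : ℝ := L * (2 * D + Fintype.card ι) with hK
  have hK0 : 0 ≤ K := by positivity
  -- roots
  set R : ℕ := ∑ r ∈ T.roots.toFinset, r.natAbs with hR
  have hroot : ∀ x : ℤ, (R : ℤ) < x → T.eval x ≠ 0 := by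
    intro x hx h0
    have h1 : x ∈ T.roots.toFinset := by
      rw [Multiset.mem_toFinset, mem_roots hT]
      exact h0
    have h2 : x.natAbs ≤ R := Finset.single_le_sum (f := Int.natAbs) (fun _ _ => Nat.zero_le _) h1
    have h3 : (x.natAbs : ℤ) = x := Int.natAbs_of_nonneg (by omega)
    omega
  refine ⟨2 * R + 3 + ⌈(H : ℝ) * L + K⌉₊, 2 * D + 1, ?_⟩
  intro s hs x hx1 hx2
  have hs3 : (3 : ℝ) ≤ s := by
    have : 3 ≤ s := by omega
    exact_mod_cast this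
  have hsK : (H : ℝ) * L + K ≤ s := by
    refine (Nat.le_ceil _).trans ?_
    have : ⌈(H : ℝ) * L + K⌉₊ ≤ s := by omega
    exact_mod_cast this
  have hx0 : T.eval x ≠ 0 := hroot x (by omega)
  have hxpos : 0 < x := by omega
  have hev : TQ.eval (x : ℚ) = ((T.eval x : ℤ) : ℚ) := by
    rw [hTQ, eval_intCast_map]
    rfl
  have hxs : 1 + |(((x : ℚ)) : ℝ)| ≤ (s : ℝ) ^ 2 := by
    have h1 : (((x : ℚ)) : ℝ) = (x : ℝ) := by push_cast; rfl
    rw [h1, abs_of_nonneg (by exact_mod_cast hxpos.le)]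
    have h2 : (x : ℝ) ≤ 2 * s := by exact_mod_cast hx2
    nlinarith
  have hpow : ∀ {M : ℝ}, 0 ≤ M → M ≤ s → M * (1 + |(((x : ℚ)) : ℝ)|) ^ D ≤ (s : ℝ) ^ (2 * D + 1) := by
    intro M hM hMs
    calc M * (1 + |(((x : ℚ)) : ℝ)|) ^ D ≤ s * ((s : ℝ) ^ 2) ^ D :=
          mul_le_mul hMs (pow_le_pow_left₀ (by positivity) hxs D) (by positivity) (by positivity)
      _ = (s : ℝ) ^ (2 * D + 1) := by rw [← pow_mul]; ring
  have hTx : (((T.eval x).natAbs : ℕ) : ℝ) ≤ L * (1 + |(((x : ℚ)) : ℝ)|) ^ D := by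
    have h1 := hbT.eval (x : ℚ)
    rw [hev] at h1
    have h2 : (((T.eval x).natAbs : ℕ) : ℝ) = |((((T.eval x : ℤ) : ℚ)) : ℝ)| := by
      rw [Nat.cast_natAbs]
      push_cast
      rfl
    rw [h2]
    exact h1
  have htpos : 0 < (T.eval x).natAbs := Int.natAbs_pos.2 hx0
  refine ⟨(H : ℝ) + 1, fun J => ?_⟩
  obtain ⟨q, hq0, hq, hqi⟩ := hG J
  refine ⟨q * (T.eval x).natAbs ^ J, Nat.mul_pos hq0 (pow_pos htpos J), ?_, fun j hj a b => ⟨?_, ?_⟩⟩
  · push_cast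
    have h1 : (q : ℝ) ≤ (H : ℝ) ^ (J + 1) := by exact_mod_cast hq
    have h2 : (H : ℝ) * (((T.eval x).natAbs : ℕ) : ℝ) ≤ (s : ℝ) ^ (2 * D + 1) := by
      calc (H : ℝ) * (((T.eval x).natAbs : ℕ) : ℝ) ≤ H * (L * (1 + |(((x : ℚ)) : ℝ)|) ^ D) :=
            mul_le_mul_of_nonneg_left hTx (Nat.cast_nonneg _)
        _ = (H * L) * (1 + |(((x : ℚ)) : ℝ)|) ^ D := by ring
        _ ≤ _ := hpow (by positivity) (by linarith)
    calc (q : ℝ) * (((T.eval x).natAbs : ℕ) : ℝ) ^ J ≤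
          (H : ℝ) ^ (J + 1) * (((T.eval x).natAbs : ℕ) : ℝ) ^ J :=
          mul_le_mul_of_nonneg_right h1 (by positivity)
      _ = H * ((H : ℝ) * (((T.eval x).natAbs : ℕ) : ℝ)) ^ J := by rw [pow_succ, mul_pow]; ring
      _ ≤ H * ((s : ℝ) ^ (2 * D + 1)) ^ J :=
          mul_le_mul_of_nonneg_left (pow_le_pow_left₀ (by positivity) h2 J) (Nat.cast_nonneg _)
      _ ≤ _ := mul_le_mul_of_nonneg_right (by linarith) (by positivity)
  · obtain ⟨z, hz⟩ := intBy_eval (hqi j hj a b) x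
    have hdvd : (T.eval x) ^ j ∣ (((T.eval x).natAbs : ℕ) : ℤ) ^ J := by
      refine (pow_dvd_pow_of_dvd ?_ j).trans (pow_dvd_pow _ hj)
      exact Int.dvd_natAbs.2 dvd_rfl
    obtain ⟨w, hw⟩ := hdvd
    refine ⟨z * w, ?_⟩
    rw [gm, Matrix.of_apply, hev, betaF_eq_beta]
    have hw' : ((((T.eval x).natAbs : ℕ) : ℚ)) ^ J = ((T.eval x : ℤ) : ℚ) ^ j * (w : ℚ) := by
      have e : ((((T.eval x).natAbs : ℕ) : ℚ)) = ((((T.eval x).natAbs : ℕ) : ℤ) : ℚ) :=
        (Int.cast_natCast _).symm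
      rw [e, ← Int.cast_pow, hw, Int.cast_mul, Int.cast_pow]
    have ht : ((T.eval x : ℤ) : ℚ) ^ j ≠ 0 := pow_ne_zero _ (by exact_mod_cast hx0)
    push_cast
    rw [hw', ← hz]
    field_simp
  · have h1 := (bd_beta hL0 hbT hbA j a b).eval (x : ℚ)
    rw [gm, Matrix.of_apply, hev]
    push_cast
    rw [abs_div, abs_pow]
    have h2 : (1 : ℝ) ≤ |((T.eval x : ℤ) : ℝ)| := by
      have : (1 : ℤ) ≤ |T.eval x| := Int.one_le_abs hx0
      exact_mod_cast this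
    have h3 : (1 : ℝ) ≤ |((T.eval x : ℤ) : ℝ)| ^ j := one_le_pow₀ h2
    refine (div_le_self (abs_nonneg _) h3).trans ?_
    rw [pow_mul, ← mul_pow] at h1
    refine h1.trans ?_
    calc (K * (1 + |(((x : ℚ)) : ℝ)|) ^ D) ^ j ≤ ((s : ℝ) ^ (2 * D + 1)) ^ j := by
          refine pow_le_pow_left₀ (by positivity) (hpow hK0 ?_) j
          have : 0 ≤ (H : ℝ) * L := by positivity
          linarith
      _ = 1 * ((s : ℝ) ^ (2 * D + 1)) ^ j := (one_mul _).symm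
      _ ≤ _ := mul_le_mul_of_nonneg_right (by
          have : (0 : ℝ) ≤ H := Nat.cast_nonneg _
          linarith) (by positivity)

end Pool.Agent.Helper79.UI
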